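import Pool.Agent.W169.HF.DefsC

/-!
# Project SC: three lines theorem on a rectangle
-/

set_option autoImplicit false

open Complex MeasureTheory Filter Topology Set
open scoped ComplexConjugate

namespace Pool.Agent.W320.HF

open Pool.Agent.W169.HF

lemma re_cos_div (x y c v : ℝ) : (Complex.cos ((((x : ℂ) + y * I) - c - v * I) / 4)).re =
    Real.cos ((x - c) / 4) * Real.cosh ((y - v) / 4) := by
  have e : (((x : ℂ) + y * I) - c - v * I) / 4 =
      (((x - c) / 4 : ℝ) : ℂ) + (((y - v) / 4 : ℝ) : ℂ) * I := by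
    push_cast; ring
  rw [e, Complex.cos_add_mul_I, ← Complex.ofReal_cos, ← Complex.ofReal_cosh, ← Complex.ofReal_sin,
    ← Complex.ofReal_sinh]
  simp only [Complex.sub_re, Complex.mul_re, Complex.mul_im, Complex.ofReal_re, Complex.ofReal_im,
    Complex.I_re, Complex.I_im]
  ring

lemma cosh_ge (t : ℝ) : |t| / 2 ≤ Real.cosh t := by
  rw [← Real.cosh_abs, Real.cosh_eq]
  have h1 := Real.add_one_le_exp |t|
  have h2 := Real.exp_pos (-|t|)
  linarith

lemma cos_half {x : ℝ} (hx : |x| ≤ 3) : 1 / 2 ≤ Real.cos (x / 4) := by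
  have h1 := Real.one_sub_sq_div_two_le_cos (x := x / 4)
  have h2 : x ^ 2 ≤ 9 := by
    have := sq_abs x
    nlinarith [abs_nonneg x]
  nlinarith

theorem rect : S_RECT := by
  intro A b κ R1 hA hb hb6 hκ hR1
  set lam : ℝ := κ / 2 with hlam
  have hl : 0 < lam := by positivity
  set R : ℝ := R1 + 64 * (A + 1) / lam with hR
  have hRR1 : R1 ≤ R := by
    have : 0 < 64 * (A + 1) / lam := by positivity
    linarith
  refine ⟨lam, R, hl, hRR1, ?_⟩
  intro ℓ x0 a0 a1 H h hℓ hH hh ha0 ha1 hs0 hs1 hst u0 hu1 hu2 hu3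
  obtain ⟨xc, hxc⟩ : ∃ xc : ℝ, xc = x0 + b / 2 := ⟨_, rfl⟩
  have hl2 : 0 ≤ lam * ℓ := by positivity
  -- the linear function
  set L : ℝ → ℝ := fun x => a0 + (a1 - a0) * ((x - x0) / b) with hL
  have hLA : ∀ x, x0 ≤ x → x ≤ x0 + b → |L x| ≤ A := by
    intro x h1 h2
    have h3 : 0 ≤ (x - x0) / b := div_nonneg (by linarith) hb.le
    have h4 : (x - x0) / b ≤ 1 := by
      rw [div_le_one hb]; linarith
    have e : L x = (1 - (x - x0) / b) * a0 + (x - x0) / b * a1 := by
      simp only [hL]; ring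
    rw [e]
    calc |(1 - (x - x0) / b) * a0 + (x - x0) / b * a1|
        ≤ |(1 - (x - x0) / b) * a0| + |(x - x0) / b * a1| := abs_add_le _ _
      _ = (1 - (x - x0) / b) * |a0| + (x - x0) / b * |a1| := by
          rw [abs_mul, abs_mul, abs_of_nonneg h3, abs_of_nonneg (by linarith : 0 ≤ 1 - (x - x0) / b)]
      _ ≤ (1 - (x - x0) / b) * A + (x - x0) / b * A :=
          add_le_add (mul_le_mul_of_nonneg_left ha0 (by linarith))
            (mul_le_mul_of_nonneg_left ha1 h3)
      _ = A := by ring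
  -- the auxiliary function
  set g : ℂ → ℂ := fun u => -((ℓ : ℂ) * ((a0 : ℂ) + ((a1 - a0 : ℝ) : ℂ) * ((u - x0) / b))) -
    ((lam * ℓ : ℝ) : ℂ) * Complex.cos ((u - (xc : ℂ) - (u0.im : ℂ) * I) / 4) with hg
  have hgd : Differentiable ℂ g := by
    rw [hg]
    fun_prop
  have hgre : ∀ u : ℂ, (g u).re = -(ℓ * L u.re) - lam * ℓ * (Real.cos ((u.re - xc) / 4) *
      Real.cosh ((u.im - u0.im) / 4)) := by
    intro u
    have h1 := re_cos_div u.re u.im xc u0.im
    rw [Complex.re_add_im] at h1
    rw [hg]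
    simp only [Complex.sub_re, Complex.neg_re]
    rw [Complex.re_ofReal_mul, Complex.re_ofReal_mul (lam * ℓ), h1, Complex.add_re,
      Complex.re_ofReal_mul, Complex.ofReal_re]
    have h2 : ((u - (x0 : ℂ)) / (b : ℂ)).re = (u.re - x0) / b := by
      rw [Complex.div_ofReal_re, Complex.sub_re, Complex.ofReal_re]
    rw [h2]
  set F : ℂ → ℂ := fun u => h u * cexp (g u) with hF
  have hFd : Differentiable ℂ F := hh.mul hgd.cexp
  have hFn : ∀ u, ‖F u‖ = ‖h u‖ * Real.exp (g u).re := by
    intro u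
    rw [hF]
    simp only
    rw [norm_mul, Complex.norm_exp]
  set C : ℝ := H * Real.exp (lam * ℓ) with hC
  have hin : ∀ x : ℝ, x0 ≤ x → x ≤ x0 + b → |x - xc| ≤ 3 := by
    intro x h1 h2
    rw [abs_le, hxc]
    constructor <;> linarith
  have hfrR : ∀ u : ℂ, x0 ≤ u.re → u.re ≤ x0 + b → |u.im| = R → ‖F u‖ ≤ C := by
    intro u h1 h2 h3
    have h6 := hst u h1 h2 h3
    have h7 : Real.exp (g u).re ≤ Real.exp (-(A * ℓ)) := by
      rw [Real.exp_le_exp, hgre]
      have h8 := cos_half (hin u.re h1 h2)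
      have h9 : 8 * (A + 1) / lam ≤ Real.cosh ((u.im - u0.im) / 4) := by
        refine le_trans ?_ (cosh_ge _)
        rw [abs_div]
        have h10 : 64 * (A + 1) / lam ≤ |u.im - u0.im| := by
          have := abs_sub_abs_le_abs_sub u.im u0.im
          rw [h3] at this
          linarith
        have h11 : |(4 : ℝ)| = 4 := abs_of_pos (by norm_num)
        rw [h11]
        have h12 : 8 * (A + 1) / lam = 64 * (A + 1) / lam / 4 / 2 := by ring
        rw [h12]
        gcongr
      have h13 : (1 / 2) * (8 * (A + 1) / lam) ≤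
          Real.cos ((u.re - xc) / 4) * Real.cosh ((u.im - u0.im) / 4) :=
        mul_le_mul h8 h9 (by positivity) (by linarith)
      have h14 : 4 * (A + 1) * ℓ ≤
          lam * ℓ * (Real.cos ((u.re - xc) / 4) * Real.cosh ((u.im - u0.im) / 4)) := by
        calc 4 * (A + 1) * ℓ = lam * ℓ * ((1 / 2) * (8 * (A + 1) / lam)) := by
              field_simp; ring
          _ ≤ _ := mul_le_mul_of_nonneg_left h13 hl2
      have h15 : -(ℓ * L u.re) ≤ ℓ * A := by
        have := (abs_le.1 (hLA u.re h1 h2)).1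
        nlinarith
      nlinarith
    rw [hFn]
    calc ‖h u‖ * Real.exp (g u).re ≤ (H * Real.exp (A * ℓ)) * Real.exp (-(A * ℓ)) :=
          mul_le_mul h6 h7 (Real.exp_pos _).le (by positivity)
      _ = H := by rw [mul_assoc, ← Real.exp_add]; simp
      _ ≤ C := by
        rw [hC]
        apply le_mul_of_one_le_right hH.le
        exact Real.one_le_exp hl2
  have hfrS : ∀ u : ℂ, (u.re = x0 ∨ u.re = x0 + b) → |u.im| ≤ R → ‖F u‖ ≤ C := by
    intro u h1 h2
    have h3 : ‖h u‖ ≤ H * Real.exp (ℓ * L u.re + lam * ℓ) := by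
      rcases h1 with h1 | h1
      · have e : L u.re = a0 := by rw [h1, hL]; simp
        rw [e]
        exact hs0 u h1 h2
      · have e : L u.re = a1 := by
          rw [h1, hL]
          simp only [add_sub_cancel_left]
          rw [div_self hb.ne']
          ring
        rw [e]
        exact hs1 u h1 h2
    have h4 : (g u).re ≤ -(ℓ * L u.re) := by
      rw [hgre]
      have h5 : |u.re - xc| ≤ 3 := by
        rcases h1 with h1 | h1
        · exact hin u.re (by linarith) (by linarith)
        · exact hin u.re (by linarith) (by linarith)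
      have h6 := cos_half h5
      have h7 := Real.one_le_cosh ((u.im - u0.im) / 4)
      have h8 : 0 ≤ Real.cos ((u.re - xc) / 4) * Real.cosh ((u.im - u0.im) / 4) := by positivity
      have := mul_nonneg hl2 h8
      linarith
    rw [hFn]
    calc ‖h u‖ * Real.exp (g u).re
        ≤ (H * Real.exp (ℓ * L u.re + lam * ℓ)) * Real.exp (-(ℓ * L u.re)) :=
          mul_le_mul h3 (Real.exp_le_exp.2 h4) (Real.exp_pos _).le (by positivity)
      _ = C := by
          rw [mul_assoc, ← Real.exp_add, hC]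
          congr 2
          ring
  have hRpos : 0 < R := by linarith
  have hmain : ‖F u0‖ ≤ C := by
    have hbd : Bornology.IsBounded (Ioo x0 (x0 + b) ×ℂ Ioo (-R) R) :=
      (Metric.isBounded_Ioo _ _).reProdIm (Metric.isBounded_Ioo _ _)
    apply Complex.norm_le_of_forall_mem_frontier_norm_le hbd hFd.diffContOnCl
    · intro z hz
      rw [Complex.frontier_reProdIm, frontier_Ioo (by linarith), frontier_Ioo (by linarith),
        closure_Ioo (by linarith), closure_Ioo (by linarith)] at hz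
      rcases hz with ⟨h1, h2⟩ | ⟨h1, h2⟩
      · apply hfrR z h1.1 h1.2
        rcases h2 with h2 | h2
        · rw [h2, abs_neg, abs_of_pos hRpos]
        · rw [h2, abs_of_pos hRpos]
      · apply hfrS z _ (abs_le.2 h2)
        rcases h1 with h1 | h1
        · exact Or.inl h1
        · exact Or.inr h1
    · rw [Complex.closure_reProdIm, closure_Ioo (by linarith), closure_Ioo (by linarith)]
      exact ⟨⟨hu1, hu2⟩, abs_le.1 (hu3.trans hRR1)⟩
  -- conclusion
  rw [hFn, hgre, sub_self, zero_div, Real.cosh_zero, mul_one] at hmain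
  have h1 : Real.cos ((u0.re - xc) / 4) ≤ 1 := Real.cos_le_one _
  have h2 : Real.exp (-(ℓ * L u0.re) - lam * ℓ) ≤
      Real.exp (-(ℓ * L u0.re) - lam * ℓ * Real.cos ((u0.re - xc) / 4)) := by
    rw [Real.exp_le_exp]
    have := mul_le_of_le_one_right hl2 h1
    linarith
  have h3 : ‖h u0‖ * Real.exp (-(ℓ * L u0.re) - lam * ℓ) ≤ C :=
    (mul_le_mul_of_nonneg_left h2 (norm_nonneg _)).trans hmain
  calc ‖h u0‖ = ‖h u0‖ * Real.exp (-(ℓ * L u0.re) - lam * ℓ) *
        Real.exp (ℓ * L u0.re + lam * ℓ) := by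
        rw [mul_assoc, ← Real.exp_add]
        have : -(ℓ * L u0.re) - lam * ℓ + (ℓ * L u0.re + lam * ℓ) = 0 := by ring
        rw [this, Real.exp_zero, mul_one]
    _ ≤ C * Real.exp (ℓ * L u0.re + lam * ℓ) := mul_le_mul_of_nonneg_right h3 (Real.exp_pos _).le
    _ = H * Real.exp (ℓ * (a0 + (a1 - a0) * ((u0.re - x0) / b)) + κ * ℓ) := by
      rw [hC, mul_assoc, ← Real.exp_add]
      congr 2
      rw [hL, hlam]
      ring

end Pool.Agent.W320.HF
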